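import Pool.Agent.Lib.MP_dd84fd_nt.L2G.T1Plus

/-!
# Goldbach representations in all residue classes to almost all moduli, logarithmic savings

`g n` is the number of ordered pairs of primes with sum `n`, and `S(n) J(n)` the Hardy-Littlewood
main term: `S` is the singular series and `J(n) = Σ_{2 ≤ m ≤ n-2} 1/(log m log(n-m))`.
With an absolute constant `C`: for every `A`, all large `X`, all `Q ≤ X`, all `δ > 0` and all
`κ ≥ (log X)^(-A)`, for all but at most `C Q (Q log² X / X + (log X)^(-A)) / (δ κ²)` of the moduli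
`q ≤ Q`, in every residue class modulo `q` all but at most `δ X / q` of the even `n ≤ X` satisfy
`|g(n) - S(n) J(n)| ≤ κ X / log² X`.
-/

set_option autoImplicit false

namespace Pool.Agent.Results.MP_dd84fd_nt.AlmostAllModuliLog

/-- number of ordered pairs of primes with sum `n` -/
def g (n : ℕ) : ℕ :=
  ((Finset.range (n + 1)).filter (fun p => Nat.Prime p ∧ Nat.Prime (n - p))).card

/-- the twin prime constant `∏_{p > 2} (1 - 1/(p-1)²)` -/
noncomputable def twinConstant : ℝ :=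
  ∏' p : {p : ℕ // p.Prime ∧ 2 < p}, (1 - 1 / (((p : ℕ) : ℝ) - 1) ^ 2)

/-- the singular series for `n`, `n` even -/
noncomputable def S (n : ℕ) : ℝ :=
  2 * twinConstant * ∏ p ∈ n.primeFactors.filter (fun p => 2 < p), ((p : ℝ) - 1) / ((p : ℝ) - 2)

/-- `Σ 1 / (log m log (n-m))` over `2 ≤ m ≤ n-2` -/
noncomputable def J (n : ℕ) : ℝ :=
  ∑ m ∈ Finset.Icc 2 (n - 2), 1 / (Real.log (m : ℝ) * Real.log ((n - m : ℕ) : ℝ))

/-- the even `n ≤ X` with `n ≡ a mod q` and `|g(n) - S(n) J(n)| > κ X / log² X` -/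
def bad (κ : ℝ) (X q a : ℕ) : Set ℕ :=
  {n | n ≤ X ∧ Even n ∧ n ≡ a [MOD q] ∧
    κ * (X / Real.log X ^ 2) < |(g n : ℝ) - S n * J n|}

/-- the moduli `q ≤ Q` having a residue class with more than `δ X / q` exceptions -/
def badModuli (δ κ : ℝ) (X Q : ℕ) : Set ℕ :=
  {q | 1 ≤ q ∧ q ≤ Q ∧ ∃ a : ℕ, δ * X / q < ((bad κ X q a).ncard : ℝ)}

theorem result :
    ∃ C : ℝ, 0 < C ∧ ∀ A : ℕ, ∃ X₀ : ℕ, ∀ X : ℕ, X₀ ≤ X → ∀ Q : ℕ, Q ≤ X →
      ∀ δ κ : ℝ, 0 < δ → 1 / Real.log X ^ A ≤ κ →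
        ((badModuli δ κ X Q).ncard : ℝ) ≤
          C * Q * (Q * Real.log X ^ 2 / X + 1 / Real.log X ^ A) / (δ * κ ^ 2) :=
  Pool.MP_dd84fd_nt.L2G.t1_plus

end Pool.Agent.Results.MP_dd84fd_nt.AlmostAllModuliLog
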