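import Pool.Agent.Lib.MP_dd84fd_nt.HX.FaFin

/-!
# Goldbach exceptions below the square root

`g n` is the number of ordered pairs of primes with sum `n`, `S` the singular series and
`J(n) = Σ_{2≤m≤n-2} 1/(log m log(n-m))`. The theorem `result` shows that, outside the multiples of
few moduli, all but `X^(1/2 - δ)` of the even numbers `n ≤ X` have the expected number of
representations up to a factor `1 ± η`, where `δ = c η`. The even numbers `n` without a divisor in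
`[(log n)^K, n^(1/2 + 2δ)]` are not multiples of these moduli; for `K ≥ 1` this includes all large
`n = 2 p`, `p` prime.
-/

set_option autoImplicit false

namespace Pool.Agent.Results.MP_dd84fd_nt.BelowSquareRoot

open Finset

/-- number of ordered pairs of primes with sum `n` -/
def g (n : ℕ) : ℕ :=
  ((range (n + 1)).filter (fun p => Nat.Prime p ∧ Nat.Prime (n - p))).card

/-- the twin prime constant `∏_{p > 2} (1 - 1/(p-1)²)` -/
noncomputable def twinConstant : ℝ :=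
  ∏' p : {p : ℕ // p.Prime ∧ 2 < p}, (1 - 1 / (((p : ℕ) : ℝ) - 1) ^ 2)

/-- the singular series for `n`, `n` even -/
noncomputable def S (n : ℕ) : ℝ :=
  2 * twinConstant * ∏ p ∈ n.primeFactors.filter (fun p => 2 < p), ((p : ℝ) - 1) / ((p : ℝ) - 2)

/-- `Σ 1 / (log m log (n-m))` over `2 ≤ m ≤ n-2` -/
noncomputable def J (n : ℕ) : ℝ :=
  ∑ m ∈ Icc 2 (n - 2), 1 / (Real.log (m : ℝ) * Real.log ((n - m : ℕ) : ℝ))

/-- `g(n)` differs from `S(n) J(n)` by more than `η S(n) J(n)` -/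
def Fails (η : ℝ) (n : ℕ) : Prop := η * (S n * J n) < |(g n : ℝ) - S n * J n|

open Classical in
/-- There are a natural number `C` and a real number `c`, `0 < c < 1/4`, such that for all
`0 < η ≤ 1`, with `δ = c η`, and every `K` there is `X₀` such that for all `X ≥ X₀` there is a set
`D` of at most `(log X)^C` integers `d`, `(log X)^K ≤ d ≤ X^(1/2 + 2δ)`, such that at most
`X^(1/2 - δ)` of the even numbers `n ≤ X` which are divisible by no `d ∈ D` with
`d ≤ n^(1/2 + 2δ)` satisfy `|g(n) - S(n) J(n)| > η S(n) J(n)`. -/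
theorem result : ∃ (C : ℕ) (c : ℝ), 0 < c ∧ c < 1 / 4 ∧ ∀ η : ℝ, 0 < η → η ≤ 1 →
    ∀ K : ℕ, ∃ X₀ : ℕ, ∀ X : ℕ, X₀ ≤ X →
      ∃ D : Finset ℕ, (D.card : ℝ) ≤ Real.log X ^ C ∧
        (∀ d ∈ D, Real.log X ^ K ≤ (d : ℝ) ∧ (d : ℝ) ≤ (X : ℝ) ^ (1 / 2 + 2 * (c * η))) ∧
        (((Icc 1 X).filter (fun n : ℕ => Even n ∧
          (∀ d ∈ D, (d : ℝ) ≤ (n : ℝ) ^ (1 / 2 + 2 * (c * η)) → ¬ d ∣ n) ∧ Fails η n)).card : ℝ) ≤
            (X : ℝ) ^ (1 / 2 - c * η) := by
  obtain ⟨C, c, hc, hc4, h⟩ := Pool.MP_dd84fd_nt.HX.fin_h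
  refine ⟨C, c, hc, hc4, fun η h0 h1 K => ?_⟩
  obtain ⟨X0, hX0⟩ := h η h0 h1 K
  refine ⟨X0, fun X hX => ?_⟩
  obtain ⟨D, h1, h2, h3⟩ := hX0 X hX
  refine ⟨D, h1, h2, h3 _ _ ?_⟩
  rintro n ⟨a1, a2, a3⟩
  exact ⟨a1, fun d hd hdn => not_le.1 (fun hle => a2 d hd hle hdn), a3⟩

end Pool.Agent.Results.MP_dd84fd_nt.BelowSquareRoot
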