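import Pool.Agent.Lib.MP_dd84fd_nt.UM.Final
import Pool.Agent.Lib.MP_dd84fd_nt.L2G.SpecMeas

/-!
# Goldbach representations in residue classes to EVERY modulus up to `X^(2/3 - ε)`: the asymptotic
# formula with an error term saving any power of `log X`

`g n` is the number of ordered pairs of primes with sum `n`, `S` the singular series and
`J(n) = Σ_{2≤m≤n-2} 1/(log m log(n-m))`. For all `ε₀ > 0` and `A` there is `B` such that for all `K`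
and all large `X`: let `1 ≤ q ≤ X^(2/3 - ε₀)` be any modulus, `a` any residue class modulo `q` with
`(a, q) ≤ (log X)^K` and `N` any random integer in this class, `1 ≤ N ≤ X`, such that the set of the
`θ ∈ [0, 1]` with `|E e(N θ)| > (log X)^(-B)` has Lebesgue measure at most `q (log X)^K / X`. Then
the probability that `N` is even and `|g(N) - S(N) J(N)| > N / (log N)^A` is at most
`(log X)^(-A)`.
-/

set_option autoImplicit false

namespace Pool.Agent.Results.MP_dd84fd_nt.EveryModulusAsymptotic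

open Finset

/-- number of ordered pairs of primes with sum `n` -/
def g (n : ℕ) : ℕ :=
  ((range (n + 1)).filter (fun p => Nat.Prime p ∧ Nat.Prime (n - p))).card

/-- the twin prime constant `∏_{p > 2} (1 - 1/(p-1)²)` -/
noncomputable def twinConstant : ℝ :=
  ∏' p : {p : ℕ // p.Prime ∧ 2 < p}, (1 - 1 / (((p : ℕ) : ℝ) - 1) ^ 2)

/-- the singular series for `n`, `n` even -/
noncomputable def S (n : ℕ) : ℝ :=
  2 * twinConstant * ∏ p ∈ n.primeFactors.filter (fun p => 2 < p), ((p : ℝ) - 1) / ((p : ℝ) - 2)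

/-- `Σ 1 / (log m log (n-m))` over `2 ≤ m ≤ n-2` -/
noncomputable def J (n : ℕ) : ℝ :=
  ∑ m ∈ Icc 2 (n - 2), 1 / (Real.log (m : ℝ) * Real.log ((n - m : ℕ) : ℝ))

/-- the Fourier transform `∑_{1 ≤ n ≤ X} ξ(n) e^(2πi n θ)` -/
noncomputable def hat (X : ℕ) (ξ : ℕ → ℝ) (θ : ℝ) : ℂ :=
  ∑ n ∈ Icc 1 X, (ξ n : ℂ) * Complex.exp (2 * Real.pi * (n * θ : ℝ) * Complex.I)

theorem result (ε₀ : ℝ) (hε₀ : 0 < ε₀) (A : ℕ) :
    ∃ B : ℕ, ∀ K : ℕ, ∃ X₀ : ℕ, ∀ X : ℕ, X₀ ≤ X →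
      ∀ q : ℕ, 1 ≤ q → (q : ℝ) ≤ (X : ℝ) ^ (2 / 3 - ε₀) →
      ∀ a : ℕ, (Nat.gcd a q : ℝ) ≤ Real.log X ^ K →
      ∀ ξ : ℕ → ℝ, (∀ n, 0 ≤ ξ n) → (∀ n, ξ n ≠ 0 → n ≡ a [MOD q]) → ∑ n ∈ Icc 1 X, ξ n = 1 →
      MeasureTheory.volume {θ : ℝ | 0 ≤ θ ∧ θ ≤ 1 ∧ 1 / Real.log X ^ B < ‖hat X ξ θ‖} ≤
        ENNReal.ofReal (q * Real.log X ^ K / X) →
      ∑ n ∈ (Icc 1 X).filter (fun n : ℕ =>
          Even n ∧ (n : ℝ) / Real.log n ^ A < |(g n : ℝ) - S n * J n|), ξ n ≤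
        1 / Real.log X ^ A := by
  obtain ⟨B1, hB1⟩ := Pool.MP_dd84fd_nt.UM.um_final ε₀ hε₀ A
  refine ⟨B1 + 1, fun K => ?_⟩
  obtain ⟨Y1, hY1⟩ := Pool.MP_dd84fd_nt.L2G.spec_meas B1 K
  obtain ⟨Z1, hZ1⟩ := hB1 (K + B1 + 1)
  refine ⟨max Y1 (max Z1 3), fun X hX q hq hqX a ha ξ hξ hcl hsum hvol => ?_⟩
  simp only [max_le_iff] at hX
  obtain ⟨hXY1, hXZ1, hX3⟩ := hX
  have : NeZero (3 * X) := ⟨by omega⟩
  have hL : 1 ≤ Real.log X := by
    have h1 : (3 : ℝ) ≤ X := by exact_mod_cast hX3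
    rw [Real.le_log_iff_exp_le (by linarith)]
    linarith [Real.exp_one_lt_d9]
  have h1 := hY1 X hXY1 (3 * X) rfl ξ hξ hsum.le q hq hvol
  have h2 := hZ1 X hXZ1 (3 * X) rfl q hq hqX a
    (ha.trans (pow_le_pow_right₀ hL (by omega))) ξ hξ hcl hsum.le h1
  refine le_trans (le_of_eq ?_) h2
  refine Finset.sum_congr ?_ fun _ _ => rfl
  ext n
  simp only [Finset.mem_filter]
  exact Iff.rfl

end Pool.Agent.Results.MP_dd84fd_nt.EveryModulusAsymptotic
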