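import Pool.Agent.Lib.MP_dd84fd_nt.L2G.SpecMeas
import Pool.Agent.Lib.MP_dd84fd_nt.EM.Main
import Pool.Agent.Lib.MP_dd84fd_nt.EM.Values

/-!
# Goldbach representations in residue classes to EVERY modulus up to `X^(6/7 - ε)`: the right order of
magnitude, for every distribution on the class with small large spectrum

`g n` is the number of ordered pairs of primes with sum `n`, `S` the singular series and
`J(n) = Σ_{2≤m≤n-2} 1/(log m log(n-m))`. For all `ε₀ > 0` and `A` there is `B` such that for all `K`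
and all large `X`: let `1 ≤ q ≤ X^(6/7 - ε₀)` be any modulus, `a` any residue class modulo `q` with
`(a, q) ≤ (log X)^K` and `N` any random integer in this class, `1 ≤ N ≤ X`, such that the set of the
`θ ∈ [0, 1]` with `|E e(N θ)| > (log X)^(-B)` has Lebesgue measure at most `q (log X)^K / X`. Then
the probability that `N` is even and not `S(N) J(N) / 40 ≤ g(N) ≤ 2 S(N) J(N)` is at most
`(log X)^(-A)`.

In particular (Weyl sums): for all `k ≥ 1`, `ε > 0`, `A`, `L` and all large `M`, for all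
`1 ≤ q ≤ M^(6 k - ε)` and `0 ≤ a ≤ q M^k` with `(a, q) ≤ (log M)^L` at most `M / (log M)^A` of the
`M ≤ m < 2 M` are such that `n = a + q m^k` is even and not `S(n) J(n) / 40 ≤ g(n) ≤ 2 S(n) J(n)`.
-/

set_option autoImplicit false

namespace Pool.Agent.Results.MP_dd84fd_nt.EveryModulusSixSevenths

open Finset

/-- number of ordered pairs of primes with sum `n` -/
def g (n : ℕ) : ℕ :=
  ((range (n + 1)).filter (fun p => Nat.Prime p ∧ Nat.Prime (n - p))).card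

/-- the twin prime constant `∏_{p > 2} (1 - 1/(p-1)²)` -/
noncomputable def twinConstant : ℝ :=
  ∏' p : {p : ℕ // p.Prime ∧ 2 < p}, (1 - 1 / (((p : ℕ) : ℝ) - 1) ^ 2)

/-- the singular series for `n`, `n` even -/
noncomputable def S (n : ℕ) : ℝ :=
  2 * twinConstant * ∏ p ∈ n.primeFactors.filter (fun p => 2 < p), ((p : ℝ) - 1) / ((p : ℝ) - 2)

/-- `Σ 1 / (log m log (n-m))` over `2 ≤ m ≤ n-2` -/
noncomputable def J (n : ℕ) : ℝ :=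
  ∑ m ∈ Icc 2 (n - 2), 1 / (Real.log (m : ℝ) * Real.log ((n - m : ℕ) : ℝ))

/-- `g(n) < S(n) J(n) / 40` or `g(n) > 2 S(n) J(n)` -/
def Fails (n : ℕ) : Prop :=
  (g n : ℝ) < 1 / 40 * (S n * J n) ∨ 2 * (S n * J n) < (g n : ℝ)

/-- the Fourier transform `∑_{1 ≤ n ≤ X} ξ(n) e^(2πi n θ)` -/
noncomputable def hat (X : ℕ) (ξ : ℕ → ℝ) (θ : ℝ) : ℂ :=
  ∑ n ∈ Icc 1 X, (ξ n : ℂ) * Complex.exp (2 * Real.pi * (n * θ : ℝ) * Complex.I)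

open Classical in
/-- the general form -/
theorem general (ε₀ : ℝ) (hε₀ : 0 < ε₀) (A : ℕ) :
    ∃ B : ℕ, ∀ K : ℕ, ∃ X₀ : ℕ, ∀ X : ℕ, X₀ ≤ X →
      ∀ q : ℕ, 1 ≤ q → (q : ℝ) ≤ (X : ℝ) ^ (6 / 7 - ε₀) →
      ∀ a : ℕ, (Nat.gcd a q : ℝ) ≤ Real.log X ^ K →
      ∀ ξ : ℕ → ℝ, (∀ n, 0 ≤ ξ n) → (∀ n, ξ n ≠ 0 → n ≡ a [MOD q]) → ∑ n ∈ Icc 1 X, ξ n = 1 →
      MeasureTheory.volume {θ : ℝ | 0 ≤ θ ∧ θ ≤ 1 ∧ 1 / Real.log X ^ B < ‖hat X ξ θ‖} ≤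
        ENNReal.ofReal (q * Real.log X ^ K / X) →
      ∑ n ∈ (Icc 1 X).filter (fun n : ℕ => Even n ∧ Fails n), ξ n ≤ 1 / Real.log X ^ A := by
  obtain ⟨B1, hB1⟩ := Pool.MP_dd84fd_nt.EM.em_67 ε₀ hε₀ A
  refine ⟨B1 + 1, fun K => ?_⟩
  obtain ⟨Y1, hY1⟩ := Pool.MP_dd84fd_nt.L2G.spec_meas B1 K
  obtain ⟨Z1, hZ1⟩ := hB1 (K + B1 + 1)
  refine ⟨max Y1 (max Z1 3), fun X hX q hq hqX a ha ξ hξ hcl hsum hvol => ?_⟩
  simp only [max_le_iff] at hX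
  obtain ⟨hXY1, hXZ1, hX3⟩ := hX
  have : NeZero (3 * X) := ⟨by omega⟩
  have hL : 1 ≤ Real.log X := by
    have h1 : (3 : ℝ) ≤ X := by exact_mod_cast hX3
    rw [Real.le_log_iff_exp_le (by linarith)]
    linarith [Real.exp_one_lt_d9]
  have h1 := hY1 X hXY1 (3 * X) rfl ξ hξ hsum.le q hq hvol
  exact hZ1 X hXZ1 (3 * X) rfl q hq hqX a
    (ha.trans (pow_le_pow_right₀ hL (by omega))) ξ hξ hcl hsum.le h1

open Classical in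
theorem result :
    (∀ k : ℕ, 1 ≤ k → ∀ ε : ℝ, 0 < ε → ∀ A L : ℕ, ∃ M₀ : ℕ, ∀ M : ℕ, M₀ ≤ M →
      ∀ q : ℕ, 1 ≤ q → (q : ℝ) ≤ (M : ℝ) ^ (6 * k - ε) →
      ∀ a : ℕ, a ≤ q * M ^ k → (Nat.gcd a q : ℝ) ≤ Real.log M ^ L →
      (((Ico M (2 * M)).filter
        (fun m => Even (a + q * m ^ k) ∧ Fails (a + q * m ^ k))).card : ℝ) ≤
          M / Real.log M ^ A) ∧
    (∀ ε₀ : ℝ, 0 < ε₀ → ∀ A : ℕ, ∃ B : ℕ, ∀ K : ℕ, ∃ X₀ : ℕ, ∀ X : ℕ, X₀ ≤ X →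
      ∀ q : ℕ, 1 ≤ q → (q : ℝ) ≤ (X : ℝ) ^ (6 / 7 - ε₀) →
      ∀ a : ℕ, (Nat.gcd a q : ℝ) ≤ Real.log X ^ K →
      ∀ ξ : ℕ → ℝ, (∀ n, 0 ≤ ξ n) → (∀ n, ξ n ≠ 0 → n ≡ a [MOD q]) → ∑ n ∈ Icc 1 X, ξ n = 1 →
      MeasureTheory.volume {θ : ℝ | 0 ≤ θ ∧ θ ≤ 1 ∧ 1 / Real.log X ^ B < ‖hat X ξ θ‖} ≤
        ENNReal.ofReal (q * Real.log X ^ K / X) →
      ∑ n ∈ (Icc 1 X).filter (fun n : ℕ => Even n ∧ Fails n), ξ n ≤ 1 / Real.log X ^ A) :=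
  ⟨fun k hk ε hε A L => Pool.MP_dd84fd_nt.EM.values Fails general k hk ε hε A L, general⟩

end Pool.Agent.Results.MP_dd84fd_nt.EveryModulusSixSevenths
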