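import Pool.Agent.Lib.MP_dd84fd_nt.KX.Main

/-!
# Goldbach representations with `X^(1/4 + ε)` exceptions outside few moduli

`g n` is the number of ordered pairs of primes with sum `n`, `S` the singular series and
`J(n) = Σ_{2≤m≤n-2} 1/(log m log(n-m))`. There is `C` such that for all `1/4 ≤ θ < 1/3`, `ε > 0`,
`K` and all large `X` there are at most `(log X)^C` moduli `d`, `(log X)^K ≤ d ≤ X^(1-θ)`, such that
all but at most `X^(θ + ε)` of the even numbers `n ≤ X` which are divisible by none of the moduli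
`d ≤ n^(1-θ)` satisfy `(1 - 5 (1-3θ)²) S(n) J(n) ≤ g(n) ≤ (1 + 4 (1-3θ)) S(n) J(n)`.
For `θ = 1/4`: at most `X^(1/4 + ε)` exceptions, moduli `≤ X^(3/4)`, `g(n) ≥ (11/16) S(n) J(n)`.
-/

set_option autoImplicit false

namespace Pool.Agent.Results.MP_dd84fd_nt.ExponentOneQuarter

open Finset

/-- number of ordered pairs of primes with sum `n` -/
def g (n : ℕ) : ℕ :=
  ((range (n + 1)).filter (fun p => Nat.Prime p ∧ Nat.Prime (n - p))).card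

/-- the twin prime constant `∏_{p > 2} (1 - 1/(p-1)²)` -/
noncomputable def twinConstant : ℝ :=
  ∏' p : {p : ℕ // p.Prime ∧ 2 < p}, (1 - 1 / (((p : ℕ) : ℝ) - 1) ^ 2)

/-- the singular series for `n`, `n` even -/
noncomputable def S (n : ℕ) : ℝ :=
  2 * twinConstant * ∏ p ∈ n.primeFactors.filter (fun p => 2 < p), ((p : ℝ) - 1) / ((p : ℝ) - 2)

/-- `Σ 1 / (log m log (n-m))` over `2 ≤ m ≤ n-2` -/
noncomputable def J (n : ℕ) : ℝ :=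
  ∑ m ∈ Icc 2 (n - 2), 1 / (Real.log (m : ℝ) * Real.log ((n - m : ℕ) : ℝ))

/-- `g(n)` is not in `[(1 - 5 (1-3θ)²) S(n) J(n), (1 + 4 (1-3θ)) S(n) J(n)]` -/
def Fails (θ : ℝ) (n : ℕ) : Prop :=
  (g n : ℝ) < (1 - 5 * (1 - 3 * θ) ^ 2) * (S n * J n) ∨
    (1 + 4 * (1 - 3 * θ)) * (S n * J n) < g n

open Classical in
/-- There is `C` such that for all `1/4 ≤ θ < 1/3`, `ε > 0` and `K` there is `X₀` such that for all
`X ≥ X₀` there is a set `D` of at most `(log X)^C` integers `d`, `(log X)^K ≤ d ≤ X^(1-θ)`, such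
that at most `X^(θ+ε)` of the even numbers `n ≤ X` which are divisible by no `d ∈ D` with
`d ≤ n^(1-θ)` satisfy `g(n) < (1 - 5 (1-3θ)²) S(n) J(n)` or
`g(n) > (1 + 4 (1-3θ)) S(n) J(n)`. -/
theorem result : ∃ C : ℕ, ∀ θ ε : ℝ, 1 / 4 ≤ θ → θ < 1 / 3 → 0 < ε → ∀ K : ℕ,
    ∃ X₀ : ℕ, ∀ X : ℕ, X₀ ≤ X →
      ∃ D : Finset ℕ, (D.card : ℝ) ≤ Real.log X ^ C ∧
        (∀ d ∈ D, Real.log X ^ K ≤ (d : ℝ) ∧ (d : ℝ) ≤ (X : ℝ) ^ (1 - θ)) ∧
        (((Icc 1 X).filter (fun n : ℕ => Even n ∧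
          (∀ d ∈ D, (d : ℝ) ≤ (n : ℝ) ^ (1 - θ) → ¬ d ∣ n) ∧ Fails θ n)).card : ℝ) ≤
            (X : ℝ) ^ (θ + ε) := by
  obtain ⟨C, hC⟩ := Pool.MP_dd84fd_nt.KX.fin_k
  refine ⟨C, fun θ ε h1 h2 hε K => ?_⟩
  obtain ⟨X0, hX0⟩ := hC θ ε h1 h2 hε K
  refine ⟨X0, fun X hX => ?_⟩
  obtain ⟨D, d1, d2, d3⟩ := hX0 X hX
  exact ⟨D, d1, d2, d3 _ _ fun n hn => hn⟩

end Pool.Agent.Results.MP_dd84fd_nt.ExponentOneQuarter
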