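import Pool.Agent.Lib.MP_dd84fd_nt.FA.Cor

/-!
# The exceptional set in Goldbach's problem outside the multiples of few moduli

`g n` is the number of ordered pairs of primes with sum `n`, `S` the singular series and
`J(n) = Σ_{2≤m≤n-2} 1/(log m log(n-m))`.

For all `A` and `ε > 0` there is `C` such that for every `K` and all large `X` there are at most
`(log X)^C` moduli `d`, all between `(log X)^K` and `√X`, such that all but at most `X^(1/2 + ε)` of
the even numbers `n ≤ X` which are divisible by none of these moduli satisfy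
`|g(n) - S(n) J(n)| ≤ n / (log n)^A`. In particular, for every `K`, all but at most `X^(1/2 + ε)` of
the even numbers `n ≤ X` without a divisor in `[(log X)^K, √X]` satisfy this inequality (for example
`n = 2 p`, or `n = m p` with `m < (log X)^K`, where `p > √X` is prime).
-/

set_option autoImplicit false

namespace Pool.Agent.Results.MP_dd84fd_nt.FewModuli

open Finset

/-- number of ordered pairs of primes with sum `n` -/
def g (n : ℕ) : ℕ :=
  ((range (n + 1)).filter (fun p => Nat.Prime p ∧ Nat.Prime (n - p))).card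

/-- the twin prime constant `∏_{p > 2} (1 - 1/(p-1)²)` -/
noncomputable def twinConstant : ℝ :=
  ∏' p : {p : ℕ // p.Prime ∧ 2 < p}, (1 - 1 / (((p : ℕ) : ℝ) - 1) ^ 2)

/-- the singular series for `n`, `n` even -/
noncomputable def S (n : ℕ) : ℝ :=
  2 * twinConstant * ∏ p ∈ n.primeFactors.filter (fun p => 2 < p), ((p : ℝ) - 1) / ((p : ℝ) - 2)

/-- `Σ 1 / (log m log (n-m))` over `2 ≤ m ≤ n-2` -/
noncomputable def J (n : ℕ) : ℝ :=
  ∑ m ∈ Icc 2 (n - 2), 1 / (Real.log (m : ℝ) * Real.log ((n - m : ℕ) : ℝ))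

/-- the asymptotic formula fails at `n` (level `A`) -/
def Fails (A n : ℕ) : Prop := (n : ℝ) / Real.log (n : ℝ) ^ A < |(g n : ℝ) - S n * J n|

open Classical in
theorem result (A : ℕ) (ε : ℝ) (hε : 0 < ε) :
    (∃ C : ℕ, ∀ K : ℕ, ∃ X₀ : ℕ, ∀ X : ℕ, X₀ ≤ X →
      ∃ D : Finset ℕ, (D.card : ℝ) ≤ Real.log X ^ C ∧
        (∀ d ∈ D, Real.log X ^ K ≤ (d : ℝ) ∧ (d : ℝ) ≤ Real.sqrt X) ∧
        (((Icc 1 X).filter (fun n : ℕ => Even n ∧ (∀ d ∈ D, ¬ d ∣ n) ∧ Fails A n)).card : ℝ) ≤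
          (X : ℝ) ^ (1 / 2 + ε)) ∧
    (∀ K : ℕ, ∃ X₀ : ℕ, ∀ X : ℕ, X₀ ≤ X →
      (((Icc 1 X).filter (fun n : ℕ => Even n ∧
        (∀ d : ℕ, d ∣ n → Real.log X ^ K ≤ (d : ℝ) → Real.sqrt X < (d : ℝ)) ∧
          Fails A n)).card : ℝ) ≤ (X : ℝ) ^ (1 / 2 + ε)) := by
  refine ⟨?_, fun K => ?_⟩
  · obtain ⟨C, hC⟩ := Pool.MP_dd84fd_nt.FA.ffin A ε hε
    refine ⟨C, fun K => ?_⟩
    obtain ⟨X0, hX0⟩ := hC K
    refine ⟨X0, fun X hX => ?_⟩
    obtain ⟨D, h1, h2, h3⟩ := hX0 X hX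
    refine ⟨D, h1, fun d hd => ⟨(h2 d hd).1, ?_⟩, ?_⟩
    · rw [Real.sqrt_eq_rpow]
      exact (h2 d hd).2
    · refine le_trans (le_of_eq ?_) h3
      congr 2
  · obtain ⟨X0, hX0⟩ := Pool.MP_dd84fd_nt.FA.cor_div A K ε hε
    exact ⟨X0, fun X hX => hX0 X hX _ _ (fun n hn => hn)⟩

end Pool.Agent.Results.MP_dd84fd_nt.FewModuli
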