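import Pool.Agent.Lib.MP_dd84fd_nt.TC.Main

/-!
# At most two failures of Goldbach's problem in short windows, `X^(1/3 + ε)` exceptions

`g n` is the number of ordered pairs of primes with sum `n`, `S` the singular series and
`J(n) = Σ_{2≤m≤n-2} 1/(log m log(n-m))`.  An even number `m` fails if `g(m) ≤ δ S(m) J(m)`.

For every `ε > 0` there is `δ > 0` such that for all `K` and large `X`, for all but `X^(1/3 + ε)` of the
`n ≤ X` (no moduli are excluded and nothing is assumed):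

(1) if `m < m'` in `[n, n + (log X)^K]` both fail, then `m m' ≡ 2 (mod 3)`;
(2) so at most two even numbers in `[n, n + (log X)^K]` fail;
(3) so for even `n` one of `n`, `n + 2`, `n + 4` is a sum of two primes, in more than `δ S J` ways.

In particular all but `X^(1/3 + ε)` odd numbers `N ≤ X` are sums of three primes one of which is `3`, `5`
or `7`.
-/

set_option autoImplicit false

namespace Pool.Agent.Lib.MP_dd84fd_nt.Variants.GoldbachGapsShort

open Finset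

/-- number of ordered pairs of primes with sum `n` -/
def g (n : ℕ) : ℕ :=
  ((range (n + 1)).filter (fun p => Nat.Prime p ∧ Nat.Prime (n - p))).card

/-- the twin prime constant `∏_{p > 2} (1 - 1/(p-1)²)` -/
noncomputable def twinConstant : ℝ :=
  ∏' p : {p : ℕ // p.Prime ∧ 2 < p}, (1 - 1 / (((p : ℕ) : ℝ) - 1) ^ 2)

/-- the singular series for `n`, `n` even -/
noncomputable def S (n : ℕ) : ℝ :=
  2 * twinConstant * ∏ p ∈ n.primeFactors.filter (fun p => 2 < p), ((p : ℝ) - 1) / ((p : ℝ) - 2)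

/-- `Σ 1 / (log m log (n-m))` over `2 ≤ m ≤ n-2` -/
noncomputable def J (n : ℕ) : ℝ :=
  ∑ m ∈ Icc 2 (n - 2), 1 / (Real.log (m : ℝ) * Real.log ((n - m : ℕ) : ℝ))

/-- `m` is even and `g(m) ≤ δ S(m) J(m)` -/
def Fails (δ : ℝ) (m : ℕ) : Prop := Even m ∧ (g m : ℝ) ≤ δ * (S m * J m)

open Classical in
/-- For every `ε > 0` there is `δ > 0` such that for all `K` there is `X₀` such that for all `X ≥ X₀`:
for all `1 ≤ n ≤ X` outside a set `E` of at most `X^(1/3+ε)` numbers any two failures `m < m'` in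
`[n, n + (log X)^K]` satisfy `m m' ≡ 2 (mod 3)`, there are at most two failures in
`[n, n + (log X)^K]`, and, if `n` is even, one of `n`, `n+2`, `n+4` has `g > δ S J`; all but at most
`X^(1/3+ε)` odd numbers `N ≤ X` are of the form `p₁ + p₂ + p₃` with `p₃ ∈ {3, 5, 7}`. -/
theorem result (ε : ℝ) (hε : 0 < ε) : ∃ δ : ℝ, 0 < δ ∧ ∀ K : ℕ, ∃ X₀ : ℕ, ∀ X : ℕ, X₀ ≤ X →
    (∃ E : Finset ℕ, (E.card : ℝ) ≤ (X : ℝ) ^ (1 / 3 + ε) ∧
      ∀ n : ℕ, 1 ≤ n → n ≤ X → n ∉ E →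
        (∀ m m' : ℕ, n ≤ m → m < m' → (m' : ℝ) ≤ n + Real.log X ^ K → Fails δ m → Fails δ m' →
          m * m' % 3 = 2) ∧
        ((Icc n (n + ⌊Real.log X ^ K⌋₊)).filter (fun m => Fails δ m)).card ≤ 2 ∧
        (Even n → ∃ m : ℕ, (m = n ∨ m = n + 2 ∨ m = n + 4) ∧ δ * (S m * J m) < g m)) ∧
    (((Icc 1 X).filter (fun N : ℕ => Odd N ∧ ¬ ∃ p₁ p₂ p₃ : ℕ, p₁.Prime ∧ p₂.Prime ∧
      (p₃ = 3 ∨ p₃ = 5 ∨ p₃ = 7) ∧ p₁ + p₂ + p₃ = N)).card : ℝ) ≤ (X : ℝ) ^ (1 / 3 + ε) :=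
  Pool.MP_dd84fd_nt.TC.gap_all Pool.MP_dd84fd_nt.TC.fin_all ε hε

end Pool.Agent.Lib.MP_dd84fd_nt.Variants.GoldbachGapsShort
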