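import Pool.Agent.Lib.MP_dd84fd_nt.TC.MainH
import Pool.Agent.Lib.MP_dd84fd_nt.TC.UAll

/-!
# Two failures of Goldbach's problem repel each other

`g n` is the number of ordered pairs of primes with sum `n`, `S` the singular series and
`J(n) = Σ_{2≤m≤n-2} 1/(log m log(n-m))`.  An even number `m` fails if `g(m) ≤ δ S(m) J(m)`.

For every `ε > 0` there are `δ, c > 0` such that for all `K` and all large `X` there is one number
`d > (log X)^K` such that for every `h ≥ 1`, outside a set `G` of at most `min(h, X^(1/3)) X^(1/3+ε)`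
numbers, two failures `m < m' ≤ X` with `m' ≤ m + h`, `m' ≤ 5m/4`, `m m' ≢ 2 (mod 3)` and greatest
common divisor at most `X^c` are both divisible by `d`.  Nothing is assumed; no moduli are excluded
besides `d`.

Consequences.
* in `result`: for all but `X^(1/3+ε)` of the `n ≤ X` at most two even numbers in `[n, n + (log X)^K]`
  fail, and, if `n` is even, one of `n`, `n + 2`, `n + 4` and one of `n`, `n + 6` has `g > δ S J`; all but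
  at most `X^(1/3+ε)` odd numbers `N ≤ X` are `p₁ + p₂ + p₃` with `p₃ ∈ {5, 11}`.
* `windows`: for all but `X^(1/3+ε)` of the `n ≤ X` two failures in `[n, n + X^c]` with
  `m m' ≢ 2 (mod 3)` are both divisible by `d`; so at most two failures in `[n, n + X^c]` are not
  divisible by `d` (`windows_two`).
* `short_windows`: windows of length `(log X)^K`, with the pairs; `p₃ ∈ {3, 5, 7}`.
* `far`: outside a set `G` of at most `X^(2/3+ε)` numbers, every set of numbers of `(4X/5, X]` with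
  pairwise greatest common divisors at most `X^c` contains at most two failures not divisible by `d`, and
  every set with pairwise greatest common divisors at most `(log X)^K` contains at most two failures.
-/

set_option autoImplicit false

namespace Pool.Agent.Lib.MP_dd84fd_nt.Variants.GoldbachGapsU

open Finset

/-- number of ordered pairs of primes with sum `n` -/
def g (n : ℕ) : ℕ :=
  ((range (n + 1)).filter (fun p => Nat.Prime p ∧ Nat.Prime (n - p))).card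

/-- the twin prime constant `∏_{p > 2} (1 - 1/(p-1)²)` -/
noncomputable def twinConstant : ℝ :=
  ∏' p : {p : ℕ // p.Prime ∧ 2 < p}, (1 - 1 / (((p : ℕ) : ℝ) - 1) ^ 2)

/-- the singular series for `n`, `n` even -/
noncomputable def S (n : ℕ) : ℝ :=
  2 * twinConstant * ∏ p ∈ n.primeFactors.filter (fun p => 2 < p), ((p : ℝ) - 1) / ((p : ℝ) - 2)

/-- `Σ 1 / (log m log (n-m))` over `2 ≤ m ≤ n-2` -/
noncomputable def J (n : ℕ) : ℝ :=
  ∑ m ∈ Icc 2 (n - 2), 1 / (Real.log (m : ℝ) * Real.log ((n - m : ℕ) : ℝ))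

/-- `m` is even and `g(m) ≤ δ S(m) J(m)` -/
def Fails (δ : ℝ) (m : ℕ) : Prop := Even m ∧ (g m : ℝ) ≤ δ * (S m * J m)

open Classical in
/-- For every `ε > 0` there are `δ, c > 0` such that for all `K` there is `X₀` such that for all
`X ≥ X₀`:

* outside a set `E` of at most `X^(1/3+ε)` numbers, for `n ≤ X` at most two even numbers of
  `[n, n + (log X)^K]` fail, and, if `n` is even, one of `n`, `n + 2`, `n + 4` and one of `n`, `n + 6`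
  has `g > δ S J`;
* all but at most `X^(1/3+ε)` odd numbers `N ≤ X` are `p₁ + p₂ + p₃` with `p₃ ∈ {5, 11}`;
* (the general form, of which the first two parts are consequences) there is a number `d > (log X)^K`
  such that for every `h ≥ 1` there is a set `G` of at most `min(h, X^(1/3)) X^(1/3+ε)` numbers such
  that any two failures `m < m' ≤ X` outside `G` with `m' ≤ m + h`, `4 m' ≤ 5 m`,
  `m m' ≢ 2 (mod 3)` and `gcd(m, m') ≤ X^c` are both divisible by `d`. -/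
theorem result (ε : ℝ) (hε : 0 < ε) : ∃ δ c : ℝ, 0 < δ ∧ 0 < c ∧ ∀ K : ℕ, ∃ X₀ : ℕ, ∀ X : ℕ,
    X₀ ≤ X →
    (∃ E : Finset ℕ, (E.card : ℝ) ≤ (X : ℝ) ^ (1 / 3 + ε) ∧ ∀ n : ℕ, 1 ≤ n → n ≤ X → n ∉ E →
      ((Icc n (n + ⌊Real.log X ^ K⌋₊)).filter (fun m => Fails δ m)).card ≤ 2 ∧
      (Even n → (∃ m : ℕ, (m = n ∨ m = n + 2 ∨ m = n + 4) ∧ δ * (S m * J m) < g m) ∧
        ∃ m : ℕ, (m = n ∨ m = n + 6) ∧ δ * (S m * J m) < g m)) ∧
    (((Icc 1 X).filter (fun N : ℕ => Odd N ∧ ¬ ∃ p₁ p₂ p₃ : ℕ, p₁.Prime ∧ p₂.Prime ∧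
      (p₃ = 5 ∨ p₃ = 11) ∧ p₁ + p₂ + p₃ = N)).card : ℝ) ≤ (X : ℝ) ^ (1 / 3 + ε) ∧
    ∃ d : ℕ, Real.log X ^ K < d ∧ ∀ h : ℕ, 1 ≤ h → ∃ G : Finset ℕ,
      (G.card : ℝ) ≤ min (h : ℝ) ((X : ℝ) ^ (1 / 3 : ℝ)) * (X : ℝ) ^ (1 / 3 + ε) ∧
      ∀ m m' : ℕ, m < m' → m' ≤ X → m' ≤ m + h → 4 * m' ≤ 5 * m → m ∉ G → m' ∉ G →
        Fails δ m → Fails δ m' → m * m' % 3 ≠ 2 → (Nat.gcd m m' : ℝ) ≤ (X : ℝ) ^ c →
          d ∣ Nat.gcd m m' :=
  Pool.MP_dd84fd_nt.TC.u_all Pool.MP_dd84fd_nt.TC.fin_allH ε hε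

open Classical in
/-- windows of length `X^c`: pairs -/
theorem windows (ε : ℝ) (hε : 0 < ε) : ∃ δ c : ℝ, 0 < δ ∧ 0 < c ∧ ∀ K : ℕ, ∃ X₀ : ℕ, ∀ X : ℕ,
    X₀ ≤ X → ∃ d : ℕ, Real.log X ^ K < d ∧
      (((Icc 1 X).filter (fun n : ℕ => ∃ m m' : ℕ, n ≤ m ∧ m < m' ∧
        (m' : ℝ) ≤ n + (X : ℝ) ^ c ∧ Fails δ m ∧ Fails δ m' ∧ m * m' % 3 ≠ 2 ∧
        ¬ d ∣ Nat.gcd m m')).card : ℝ) ≤ (X : ℝ) ^ (1 / 3 + ε) :=
  Pool.MP_dd84fd_nt.TC.win_pair Pool.MP_dd84fd_nt.TC.fin_allH ε hε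

open Classical in
/-- windows of length `X^c`: at most two failures which are not divisible by `d` -/
theorem windows_two (ε : ℝ) (hε : 0 < ε) : ∃ δ c : ℝ, 0 < δ ∧ 0 < c ∧ ∀ K : ℕ, ∃ X₀ : ℕ,
    ∀ X : ℕ, X₀ ≤ X → ∃ d : ℕ, Real.log X ^ K < d ∧
      (((Icc 1 X).filter (fun n : ℕ =>
        2 < ((Icc n (n + ⌊(X : ℝ) ^ c⌋₊)).filter (fun m => Fails δ m ∧ ¬ d ∣ m)).card)).card : ℝ) ≤
        (X : ℝ) ^ (1 / 3 + ε) :=
  Pool.MP_dd84fd_nt.TC.win_three Pool.MP_dd84fd_nt.TC.fin_allH ε hε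

open Classical in
/-- windows of length `(log X)^K`: any two failures `m < m'` in `[n, n + (log X)^K]` satisfy
`m m' ≡ 2 (mod 3)`, there are at most two failures, and, if `n` is even, one of `n`, `n+2`, `n+4` has
`g > δ S J`; and almost all odd numbers are `p₁ + p₂ + p₃` with `p₃ ∈ {3, 5, 7}` -/
theorem short_windows (ε : ℝ) (hε : 0 < ε) : ∃ δ : ℝ, 0 < δ ∧ ∀ K : ℕ, ∃ X₀ : ℕ, ∀ X : ℕ,
    X₀ ≤ X → (∃ E : Finset ℕ, (E.card : ℝ) ≤ (X : ℝ) ^ (1 / 3 + ε) ∧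
      ∀ n : ℕ, 1 ≤ n → n ≤ X → n ∉ E →
        (∀ m m' : ℕ, n ≤ m → m < m' → (m' : ℝ) ≤ n + Real.log X ^ K → Fails δ m → Fails δ m' →
          m * m' % 3 = 2) ∧
        ((Icc n (n + ⌊Real.log X ^ K⌋₊)).filter (fun m => Fails δ m)).card ≤ 2 ∧
        (Even n → ∃ m : ℕ, (m = n ∨ m = n + 2 ∨ m = n + 4) ∧ δ * (S m * J m) < g m)) ∧
    (((Icc 1 X).filter (fun N : ℕ => Odd N ∧ ¬ ∃ p₁ p₂ p₃ : ℕ, p₁.Prime ∧ p₂.Prime ∧
      (p₃ = 3 ∨ p₃ = 5 ∨ p₃ = 7) ∧ p₁ + p₂ + p₃ = N)).card : ℝ) ≤ (X : ℝ) ^ (1 / 3 + ε) :=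
  Pool.MP_dd84fd_nt.TC.gap_all
    (Pool.MP_dd84fd_nt.TC.finT_of_finH Pool.MP_dd84fd_nt.TC.fin_allH) ε hε

open Classical in
/-- failures at any distance -/
theorem far (ε : ℝ) (hε : 0 < ε) : ∃ δ c : ℝ, 0 < δ ∧ 0 < c ∧ ∀ K : ℕ, ∃ X₀ : ℕ, ∀ X : ℕ,
    X₀ ≤ X → ∃ d : ℕ, Real.log X ^ K < d ∧ ∃ G : Finset ℕ,
      (G.card : ℝ) ≤ (X : ℝ) ^ (2 / 3 + ε) ∧ ∀ A : Finset ℕ, (∀ a ∈ A, 4 * X < 5 * a ∧ a ≤ X) →
        ((∀ a ∈ A, ∀ b ∈ A, a ≠ b → (Nat.gcd a b : ℝ) ≤ (X : ℝ) ^ c) →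
          (A.filter (fun m => Fails δ m ∧ m ∉ G ∧ ¬ d ∣ m)).card ≤ 2) ∧
        ((∀ a ∈ A, ∀ b ∈ A, a ≠ b → (Nat.gcd a b : ℝ) ≤ Real.log X ^ K) →
          (A.filter (fun m => Fails δ m ∧ m ∉ G)).card ≤ 2) :=
  Pool.MP_dd84fd_nt.TC.far_set Pool.MP_dd84fd_nt.TC.fin_allH ε hε

end Pool.Agent.Lib.MP_dd84fd_nt.Variants.GoldbachGapsU
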