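import Pool.Agent.Lib.MP_dd84fd_nt.RL.Main

/-!
# Goldbach representations in random linear images of arbitrary sets

`q` prime, `V ⊆ (ℤ/q)^k` arbitrary. For all but a proportion `C (log q)⁴ / (κ¹⁰ |V|)` of the linear
forms `l` on `(ℤ/q)^k`, EVERY translate `b + l(V)` satisfies the Hardy–Littlewood prediction for
`g(n)` with relative precision `κ` at all but `κ |V|` of its even elements, and it has at least
`(1/2 - κ) |V|` even elements of this kind.
-/

set_option autoImplicit false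

namespace Pool.Agent.Results.MP_dd84fd_nt.RandomLinearImages

open Finset

/-- number of ordered representations of `n` as a sum of two primes -/
def g (n : ℕ) : ℕ :=
  ((range (n + 1)).filter (fun p => Nat.Prime p ∧ Nat.Prime (n - p))).card

/-- the twin prime constant `∏_{p > 2} (1 - 1/(p-1)²)` -/
noncomputable def twinConstant : ℝ :=
  ∏' p : {p : ℕ // p.Prime ∧ 2 < p}, (1 - 1 / (((p : ℕ) : ℝ) - 1) ^ 2)

/-- the singular series for `n`, `n` even -/
noncomputable def S (n : ℕ) : ℝ :=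
  2 * twinConstant * ∏ p ∈ n.primeFactors.filter (fun p => 2 < p), ((p : ℝ) - 1) / ((p : ℝ) - 2)

/-- `Σ 1 / (log m log (n-m))` over `2 ≤ m ≤ n-2` -/
noncomputable def J (n : ℕ) : ℝ :=
  ∑ m ∈ Icc 2 (n - 2), 1 / (Real.log (m : ℝ) * Real.log ((n - m : ℕ) : ℝ))

/-- `n ≥ κ q / 40` and `g(n)` is within `κ n / (log n)²` of its predicted value -/
def Close (κ : ℝ) (q n : ℕ) : Prop :=
  κ * q / 40 ≤ n ∧ |(g n : ℝ) - S n * J n| ≤ κ * n / (Real.log n) ^ 2

/-- There is an absolute constant `C` such that for every `B`, every large prime `q`, every real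
`κ` between `(log q)^(-B)` and `1`, every `k` and every set `V` of vectors in `(ℤ/q)^k`: for all but
a proportion `C (log q)⁴ / (κ¹⁰ |V|)` of the linear forms `l` on `(ℤ/q)^k`, all translates
`b + l(V)` have the following two properties. Let `n(v)` be the least nonnegative residue of
`b + l(v)`. At most `κ |V|` of the `v ∈ V` have `n(v)` even and not `Close`, and at least
`(1/2 - κ) |V|` of the `v ∈ V` have `n(v)` even and `Close`. -/
theorem result : ∃ C : ℝ, 0 < C ∧ ∀ B : ℕ, ∃ q₀ : ℕ, ∀ q : ℕ, q.Prime → q₀ ≤ q →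
    ∀ κ : ℝ, 1 / (Real.log q) ^ B ≤ κ → κ ≤ 1 → ∀ (k : ℕ) (V : Finset (Fin k → ZMod q)),
      (({l : Fin k → ZMod q | ¬ ∀ b : ZMod q,
          (({v : Fin k → ZMod q | v ∈ V ∧ Even (b + ∑ i, l i * v i).val ∧
            ¬ Close κ q (b + ∑ i, l i * v i).val}.ncard : ℕ) : ℝ) ≤ κ * V.card ∧
          (1 / 2 - κ) * V.card ≤
            (({v : Fin k → ZMod q | v ∈ V ∧ Even (b + ∑ i, l i * v i).val ∧
              Close κ q (b + ∑ i, l i * v i).val}.ncard : ℕ) : ℝ)}.ncard : ℕ) : ℝ) *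
        (κ ^ 10 * V.card) ≤ C * (Real.log q) ^ 4 * (q : ℝ) ^ k := by
  refine ⟨2 ^ 10 * (16 * 9 ^ 4 * 50 ^ 4 + 128), by norm_num, fun B => ?_⟩
  obtain ⟨D', X0, hX0⟩ := Pool.MP_dd84fd_nt.RL.params (B + 1)
  obtain ⟨X1, hX1⟩ := Filter.eventually_atTop.1
    ((Real.tendsto_log_atTop.comp (tendsto_natCast_atTop_atTop (R := ℝ))).eventually_ge_atTop
      ((2 : ℝ) ^ (B + 1)))
  refine ⟨max X0 (max X1 4) + 1, fun q hqp hq κ hκ hκ1 k V => ?_⟩
  have hqF : Fact q.Prime := ⟨hqp⟩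
  have hqX0 : X0 ≤ q - 1 := by
    have := le_max_left X0 (max X1 4)
    omega
  have hqX1 : X1 ≤ q - 1 := by
    have := (le_max_left X1 4).trans (le_max_right X0 (max X1 4))
    omega
  have hq4 : 5 ≤ q := by
    have := (le_max_right X1 4).trans (le_max_right X0 (max X1 4))
    omega
  have hG := hX0 (q - 1) hqX0
  have hL2 := hX1 (q - 1) hqX1
  rw [Function.comp_apply] at hL2
  obtain ⟨X, hX⟩ : ∃ X : ℝ, X = ((q - 1 : ℕ) : ℝ) := ⟨_, rfl⟩
  obtain ⟨L, hL⟩ : ∃ L : ℝ, L = Real.log X := ⟨_, rfl⟩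
  rw [← hX, ← hL] at hL2
  have hXq : X = q - 1 := by
    rw [hX, Nat.cast_sub (by omega), Nat.cast_one]
  have hq5 : (5 : ℝ) ≤ q := by exact_mod_cast hq4
  have hL0 : 0 < L := by
    have h1 : (0 : ℝ) < 2 ^ (B + 1) := by positivity
    linarith
  have hL1 : 1 ≤ L := le_trans (one_le_pow₀ (by norm_num)) hL2
  have hLq : L ≤ Real.log q := by
    rw [hL]
    exact Real.log_le_log (by linarith) (by linarith)
  have hLq2 : Real.log q ≤ 2 * L := by
    have h1 : (q : ℝ) ≤ X ^ 2 := by rw [hXq]; nlinarith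
    have h2 : Real.log q ≤ Real.log (X ^ 2) := Real.log_le_log (by linarith) h1
    rw [Real.log_pow, ← hL] at h2
    exact_mod_cast h2
  have hlq : 0 < Real.log q := by linarith
  have hκ0 : 0 < κ := lt_of_lt_of_le (by positivity) hκ
  have ht0 : 1 ≤ (κ / 2) * L ^ (B + 1) := by
    have h1 : 1 ≤ κ * (Real.log q) ^ B := by
      rwa [div_le_iff₀ (by positivity)] at hκ
    have h2 : (Real.log q) ^ B ≤ 2 ^ B * L ^ B := by
      rw [← mul_pow]
      exact pow_le_pow_left₀ hlq.le hLq2 B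
    have h3 : 1 ≤ κ * (2 ^ B * L ^ B) := h1.trans (mul_le_mul_of_nonneg_left h2 hκ0.le)
    have h4 : κ * (2 ^ B * L ^ B) ≤ (κ / 2) * L ^ (B + 1) := by
      have h5 : 0 ≤ κ / 2 * L ^ B := by positivity
      have h6 : κ * (2 ^ B * L ^ B) = (κ / 2 * L ^ B) * 2 ^ (B + 1) := by
        rw [pow_succ]
        ring
      have h7 : (κ / 2) * L ^ (B + 1) = (κ / 2 * L ^ B) * L := by
        rw [pow_succ]
        ring
      rw [h6, h7]
      exact mul_le_mul_of_nonneg_left hL2 h5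
    linarith
  rcases V.eq_empty_or_nonempty with rfl | hV
  · simp only [Finset.card_empty, Nat.cast_zero, mul_zero]
    positivity
  classical
  have hmain := Pool.MP_dd84fd_nt.RL.core2 (k := k) hG (κ / 2) L X hX hL ht0 (by positivity)
    (by linarith) V hV
  have hσ : (0 : ℝ) < V.card := by exact_mod_cast hV.card_pos
  have hzq : κ * q / 40 ≤ κ / 2 * q / 17 := by
    have : 0 ≤ κ * q := by positivity
    linarith
  have hsub : {l : Fin k → ZMod q | ¬ ∀ b : ZMod q,
          (({v : Fin k → ZMod q | v ∈ V ∧ Even (b + ∑ i, l i * v i).val ∧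
            ¬ Close κ q (b + ∑ i, l i * v i).val}.ncard : ℕ) : ℝ) ≤ κ * V.card ∧
          (1 / 2 - κ) * V.card ≤
            (({v : Fin k → ZMod q | v ∈ V ∧ Even (b + ∑ i, l i * v i).val ∧
              Close κ q (b + ∑ i, l i * v i).val}.ncard : ℕ) : ℝ)} ⊆
      {l : Fin k → ZMod q | ∃ β : ZMod q,
        κ / 2 * V.card < (({s ∈ (V : Set (Fin k → ZMod q)) | Pool.MP_dd84fd_nt.RL.Bad2
          (κ / 2 * q / 17) (κ / 2) (β + Pool.Agent.Lib.MP_dd84fd_nt.Dilates.dot l s).val} :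
          Set (Fin k → ZMod q)).ncard : ℝ) ∨
        ((V.filter (fun s => Even (β + Pool.Agent.Lib.MP_dd84fd_nt.Dilates.dot l s).val)).card
          : ℝ) < (1 / 2 - κ / 2) * V.card} := by
    intro l hl
    rw [Set.mem_ofPred_eq, not_forall] at hl
    obtain ⟨b, hb⟩ := hl
    refine ⟨b, ?_⟩
    by_contra hcon
    rw [not_or, not_lt, not_lt] at hcon
    obtain ⟨hc1, hc2⟩ := hcon
    apply hb
    have hbad : (({v : Fin k → ZMod q | v ∈ V ∧ Even (b + ∑ i, l i * v i).val ∧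
            ¬ Close κ q (b + ∑ i, l i * v i).val}.ncard : ℕ) : ℝ) ≤ κ / 2 * V.card := by
      refine le_trans ?_ hc1
      have h1 : {v : Fin k → ZMod q | v ∈ V ∧ Even (b + ∑ i, l i * v i).val ∧
            ¬ Close κ q (b + ∑ i, l i * v i).val} ⊆
          ({s ∈ (V : Set (Fin k → ZMod q)) | Pool.MP_dd84fd_nt.RL.Bad2
          (κ / 2 * q / 17) (κ / 2) (b + Pool.Agent.Lib.MP_dd84fd_nt.Dilates.dot l s).val} :
          Set (Fin k → ZMod q)) := by
        intro v hv
        obtain ⟨hv1, hv2, hv3⟩ := hv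
        refine ⟨hv1, hv2, ?_⟩
        by_contra hcon
        rw [not_or, not_lt, not_lt] at hcon
        apply hv3
        obtain ⟨n, hn⟩ : ∃ n : ℕ, n = (b + ∑ i, l i * v i).val := ⟨_, rfl⟩
        have h2 : (b + Pool.Agent.Lib.MP_dd84fd_nt.Dilates.dot l v).val = n := hn.symm
        rw [h2] at hcon
        rw [← hn]
        refine ⟨hzq.trans hcon.1, ?_⟩
        have h3 : |(g n : ℝ) - S n * J n| ≤ κ / 2 * n / (Real.log n) ^ 2 := hcon.2
        refine h3.trans (div_le_div_of_nonneg_right ?_ (by positivity))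
        exact mul_le_mul_of_nonneg_right (by linarith) (by positivity)
      have hfin : ({s ∈ (V : Set (Fin k → ZMod q)) | Pool.MP_dd84fd_nt.RL.Bad2
          (κ / 2 * q / 17) (κ / 2) (b + Pool.Agent.Lib.MP_dd84fd_nt.Dilates.dot l s).val} :
          Set (Fin k → ZMod q)).Finite := (Finset.finite_toSet V).subset (fun s hs => hs.1)
      exact_mod_cast Set.ncard_le_ncard h1 hfin
    refine ⟨hbad.trans (mul_le_mul_of_nonneg_right (by linarith) hσ.le), ?_⟩
    have h4 : (V.filter (fun s => Even (b + Pool.Agent.Lib.MP_dd84fd_nt.Dilates.dot l s).val)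
        : Set (Fin k → ZMod q)) ⊆
        {v : Fin k → ZMod q | v ∈ V ∧ Even (b + ∑ i, l i * v i).val ∧
            ¬ Close κ q (b + ∑ i, l i * v i).val} ∪
        {v : Fin k → ZMod q | v ∈ V ∧ Even (b + ∑ i, l i * v i).val ∧
            Close κ q (b + ∑ i, l i * v i).val} := by
      intro v hv
      rw [Finset.mem_coe, mem_filter] at hv
      by_cases h5 : Close κ q (b + ∑ i, l i * v i).val
      · exact Or.inr ⟨hv.1, hv.2, h5⟩
      · exact Or.inl ⟨hv.1, hv.2, h5⟩
    have h6 := Set.ncard_le_ncard h4 ((Finset.finite_toSet V).subset (by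
      rintro v (hv | hv)
      · exact hv.1
      · exact hv.1))
    rw [Set.ncard_coe_finset] at h6
    have h7 := h6.trans (Set.ncard_union_le _ _)
    have h8 : ((V.filter (fun s => Even (b + Pool.Agent.Lib.MP_dd84fd_nt.Dilates.dot l s).val)).card
        : ℝ) ≤ (({v : Fin k → ZMod q | v ∈ V ∧ Even (b + ∑ i, l i * v i).val ∧
            ¬ Close κ q (b + ∑ i, l i * v i).val}.ncard : ℕ) : ℝ) +
        (({v : Fin k → ZMod q | v ∈ V ∧ Even (b + ∑ i, l i * v i).val ∧
            Close κ q (b + ∑ i, l i * v i).val}.ncard : ℕ) : ℝ) := by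
      exact_mod_cast h7
    linarith
  have hle := Set.ncard_le_ncard hsub (Set.toFinite _)
  have hle' : (({l : Fin k → ZMod q | ¬ ∀ b : ZMod q,
          (({v : Fin k → ZMod q | v ∈ V ∧ Even (b + ∑ i, l i * v i).val ∧
            ¬ Close κ q (b + ∑ i, l i * v i).val}.ncard : ℕ) : ℝ) ≤ κ * V.card ∧
          (1 / 2 - κ) * V.card ≤
            (({v : Fin k → ZMod q | v ∈ V ∧ Even (b + ∑ i, l i * v i).val ∧
              Close κ q (b + ∑ i, l i * v i).val}.ncard : ℕ) : ℝ)}.ncard : ℕ) : ℝ) ≤ _ :=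
    Nat.cast_le.2 hle
  refine (mul_le_mul_of_nonneg_right hle' (by positivity)).trans ?_
  have h9 : κ ^ 10 * (V.card : ℝ) = 2 ^ 10 * ((κ / 2) ^ 10 * V.card) := by
    rw [div_pow]
    field_simp
  rw [h9, mul_left_comm]
  have h10 : L ^ 4 ≤ (Real.log q) ^ 4 := pow_le_pow_left₀ hL0.le hLq 4
  calc _ ≤ (2 : ℝ) ^ 10 * ((16 * 9 ^ 4 * 50 ^ 4 + 128) * L ^ 4 * (q : ℝ) ^ k) :=
        mul_le_mul_of_nonneg_left hmain (by positivity)
    _ = (2 ^ 10 * (16 * 9 ^ 4 * 50 ^ 4 + 128)) * L ^ 4 * (q : ℝ) ^ k := by ring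
    _ ≤ _ := mul_le_mul_of_nonneg_right (mul_le_mul_of_nonneg_left h10 (by norm_num))
        (by positivity)

end Pool.Agent.Results.MP_dd84fd_nt.RandomLinearImages
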