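import Pool.Agent.Lib.MP_dd84fd_nt.GX.GFin

/-!
# The exceptional set in Goldbach's problem outside thin arithmetic progressions

`g n` is the number of ordered pairs of primes with sum `n`, `S` the singular series and
`J(n) = Σ_{2≤m≤n-2} 1/(log m log(n-m))`. For all `A, K` and all `ε, κ > 0` and all large `X` there
are at most `X^κ` arithmetic progressions `{c + i q : 0 ≤ i < T}` with `q ≤ √X`, `q T ≤ X`,
`X^(1/5) ≤ T ≤ X / (log X)^K` and `Σ (T/X)^κ ≤ 1` such that all but `X^(1/2 + ε)` of the even numbers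
`n ≤ X` outside these progressions satisfy `|g(n) - S(n) J(n)| ≤ n / (log n)^A`.
-/

set_option autoImplicit false

namespace Pool.Agent.Results.MP_dd84fd_nt.ThinProgressions

open Finset

/-- number of ordered pairs of primes with sum `n` -/
def g (n : ℕ) : ℕ :=
  ((range (n + 1)).filter (fun p => Nat.Prime p ∧ Nat.Prime (n - p))).card

/-- the twin prime constant `∏_{p > 2} (1 - 1/(p-1)²)` -/
noncomputable def twinConstant : ℝ :=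
  ∏' p : {p : ℕ // p.Prime ∧ 2 < p}, (1 - 1 / (((p : ℕ) : ℝ) - 1) ^ 2)

/-- the singular series for `n`, `n` even -/
noncomputable def S (n : ℕ) : ℝ :=
  2 * twinConstant * ∏ p ∈ n.primeFactors.filter (fun p => 2 < p), ((p : ℝ) - 1) / ((p : ℝ) - 2)

/-- `Σ 1 / (log m log (n-m))` over `2 ≤ m ≤ n-2` -/
noncomputable def J (n : ℕ) : ℝ :=
  ∑ m ∈ Icc 2 (n - 2), 1 / (Real.log (m : ℝ) * Real.log ((n - m : ℕ) : ℝ))

/-- the triple `p = (c, q, T)` stands for the arithmetic progression `{c + i q : 0 ≤ i < T}` -/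
def InProg (p : ℤ × ℕ × ℕ) (n : ℕ) : Prop := ∃ i : ℕ, i < p.2.2 ∧ (n : ℤ) = p.1 + i * p.2.1

open Classical in
theorem result (A K : ℕ) (ε κ : ℝ) (hε : 0 < ε) (hκ : 0 < κ) :
    ∃ X₀ : ℕ, ∀ X : ℕ, X₀ ≤ X → ∃ P : Finset (ℤ × ℕ × ℕ),
      (∀ p ∈ P, 1 ≤ p.2.1 ∧ (p.2.1 : ℝ) ≤ Real.sqrt X ∧ p.2.1 * p.2.2 ≤ X ∧
        (X : ℝ) ^ (1 / 5 : ℝ) ≤ (p.2.2 : ℝ) ∧ (p.2.2 : ℝ) ≤ X / (Real.log X) ^ K) ∧
      (P.card : ℝ) ≤ (X : ℝ) ^ κ ∧ ∑ p ∈ P, ((p.2.2 : ℝ) / X) ^ κ ≤ 1 ∧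
      (((Icc 1 X).filter (fun n : ℕ => Even n ∧ (∀ p ∈ P, ¬ InProg p n) ∧
        (n : ℝ) / Real.log n ^ A < |(g n : ℝ) - S n * J n|)).card : ℝ) ≤
          (X : ℝ) ^ (1 / 2 + ε) := by
  obtain ⟨X0, h⟩ := Pool.MP_dd84fd_nt.GX.gfin A K ε κ hε hκ
  refine ⟨X0, fun X hX => ?_⟩
  obtain ⟨P, h1, h2, h3, h4⟩ := h X hX
  refine ⟨P, h1, h2, h3, le_trans (le_of_eq ?_) h4⟩
  congr 2

end Pool.Agent.Results.MP_dd84fd_nt.ThinProgressions
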